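import Mathlib
import Pool.Agent.Q72.Res.BReg
import Pool.Agent.Q72.Res.Lower

/-!
# MP_1ea83a_an: the residual function of the residual second term need not vanish

On the unit ball of `ℂ²` put `ω = (1 + z₁)/(1 - z₁)` and `ζ = z₂/(1 - z₁)`, so that
`Re ω - |ζ|² = (1 - |z|²)/|1 - z₁|² > 0`.  For the negative pluriharmonic function
`φ = -Re (ω - ζ²)` one has `g_φ = -(Re ω - |ζ|²)`, `φ - g_φ = -2 (Im ζ)²`, and every negative psh
function below `-2 (Im ζ)² + C` is below `g_φ`.
-/

set_option autoImplicit false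

open Metric Set Filter Topology

namespace Pool.Agent.Results.MP_1ea83a_an.SecondTermResidualNonzero

open Q72.Psh Q72.Res

/-- The residual second term `r_φ = P(φ - g_φ)`, where `φ - g_φ` is considered off
`{g_φ = -∞}`. -/
noncomputable def secondTerm {n : ℕ} (D : Set (Cn n)) (φ : Cn n → EReal) : Cn n → EReal :=
  reg (fun x => sSup {t | ∃ v : Cn n → EReal, IsPSH D v ∧
    (∀ y ∈ D, res D φ y ≠ ⊥ → v y ≤ φ y - res D φ y) ∧ t = v x})

theorem result :
    ∃ D : Set (Cn 2), IsBRegular D ∧ ∃ φ ∈ PSHneg D,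
      (∀ z ∈ D, res D φ z < 0) ∧ ∀ z ∈ D, res D (secondTerm D φ) z ≤ res D φ z := by
  refine ⟨B2, isBRegular_ball two_pos, _, phip_mem, fun z hz => ?_, fun z hz => ?_⟩
  · rw [res_phip hz]
    have := Om_neg hz
    exact_mod_cast this
  · rw [res_phip hz]
    have hc : ContinuousOn (fun z => phip z - Om z) B2 := continuousOn_phip.sub continuousOn_Om
    have h1 : ∀ x ∈ B2, secondTerm B2 (fun z => ((phip z : ℝ) : EReal)) x ≤
        ((phip x - Om x : ℝ) : EReal) := by
      intro x hx
      apply reg_le isOpen_ball hc _ hx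
      intro y hy
      apply sSup_le
      rintro t ⟨v, hv, hle, rfl⟩
      have h2 := hle y hy
      rw [res_phip hy] at h2
      have h3 := h2 (EReal.coe_ne_bot _)
      rwa [← EReal.coe_sub] at h3
    apply res_le isOpen_ball continuousOn_Om _ hz
    rintro v hv ⟨C, hC⟩ y hy
    refine bound_second hv.1 hv.2.1 (C := C) (fun x hx => ?_) hy
    rw [EReal.coe_add]
    exact (hC x hx).trans (by gcongr; exact h1 x hx)

end Pool.Agent.Results.MP_1ea83a_an.SecondTermResidualNonzero
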